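import Pool.Agent.Lib.MP_0430e4_lc.BY.P.ALow
import Pool.Agent.Lib.MP_0430e4_lc.All.LOP

/-!
# Block LOW of Y1 (helper91): Taylor coefficients of products

`tc f k` = real Taylor coefficient at `0`; `RC f` = analytic at `0` with real Taylor coefficients.
-/

set_option autoImplicit false

namespace Pool.Agent.Lib.MP_0430e4_lc.YL

open Finset

/-- the real Taylor coefficient of index `k` at `0` -/
noncomputable def tc (f : ℂ → ℂ) (k : ℕ) : ℝ := (iteratedDeriv k f 0).re / (k.factorial : ℝ)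

/-- analytic at `0` with real Taylor coefficients -/
def RC (f : ℂ → ℂ) : Prop := AnalyticAt ℂ f 0 ∧ ∀ k : ℕ, (iteratedDeriv k f 0).im = 0

theorem RC.eq {f : ℂ → ℂ} (h : RC f) (k : ℕ) :
    iteratedDeriv k f 0 = (k.factorial : ℂ) * (tc f k : ℂ) := by
  have h1 : (k.factorial : ℂ) ≠ 0 := by exact_mod_cast Nat.factorial_ne_zero k
  have h2 : ((iteratedDeriv k f 0).re : ℂ) = iteratedDeriv k f 0 := by
    apply Complex.ext
    · simp
    · simp [h.2 k]
  unfold tc
  push_cast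
  rw [h2]
  field_simp

theorem tc_of_eq {f : ℂ → ℂ} {k : ℕ} {a : ℝ}
    (h : iteratedDeriv k f 0 = (k.factorial : ℂ) * (a : ℂ)) : tc f k = a := by
  have h1 : (k.factorial : ℝ) ≠ 0 := by exact_mod_cast Nat.factorial_ne_zero k
  unfold tc
  rw [h, ← Complex.ofReal_natCast, Complex.re_ofReal_mul, Complex.ofReal_re]
  field_simp

theorem RC.mul_eq {f g : ℂ → ℂ} (hf : RC f) (hg : RC g) (k : ℕ) :
    iteratedDeriv k (f * g) 0
      = (k.factorial : ℂ) * ((∑ i ∈ range (k + 1), tc f i * tc g (k - i) : ℝ) : ℂ) := by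
  rw [iteratedDeriv_mul (hf.1.contDiffAt) (hg.1.contDiffAt)]
  push_cast
  rw [mul_sum]
  apply sum_congr rfl
  intro i hi
  rw [mem_range] at hi
  rw [hf.eq, hg.eq]
  have h3 : (k.choose i : ℂ) * (i.factorial : ℂ) * ((k - i).factorial : ℂ) = (k.factorial : ℂ) := by
    exact_mod_cast Nat.choose_mul_factorial_mul_factorial (show i ≤ k by omega)
  rw [← h3]
  ring

theorem RC.mul {f g : ℂ → ℂ} (hf : RC f) (hg : RC g) : RC (f * g) := by
  refine ⟨hf.1.mul hg.1, fun k => ?_⟩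
  rw [hf.mul_eq hg, ← Complex.ofReal_natCast, ← Complex.ofReal_mul, Complex.ofReal_im]

theorem tc_mul {f g : ℂ → ℂ} (hf : RC f) (hg : RC g) (k : ℕ) :
    tc (f * g) k = ∑ i ∈ range (k + 1), tc f i * tc g (k - i) :=
  tc_of_eq (hf.mul_eq hg k)

theorem rc_one : RC (1 : ℂ → ℂ) := by
  refine ⟨analyticAt_const, fun k => ?_⟩
  rcases k with _ | k
  · simp
  · rw [show (1 : ℂ → ℂ) = fun _ => (1 : ℂ) from rfl, iteratedDeriv_const]
    simp

theorem tc_one (k : ℕ) : tc (1 : ℂ → ℂ) k = if k = 0 then 1 else 0 := by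
  unfold tc
  rcases k with _ | k
  · simp
  · rw [show (1 : ℂ → ℂ) = fun _ => (1 : ℂ) from rfl, iteratedDeriv_const]
    simp

theorem RC.pow {f : ℂ → ℂ} (hf : RC f) (m : ℕ) : RC (f ^ m) := by
  induction m with
  | zero => rw [pow_zero]; exact rc_one
  | succ m ih => rw [pow_succ]; exact ih.mul hf

theorem tc_nonneg_mul {f g : ℂ → ℂ} (hf : RC f) (hg : RC g) {K : ℕ}
    (h1 : ∀ k ≤ K, 0 ≤ tc f k) (h2 : ∀ k ≤ K, 0 ≤ tc g k) : ∀ k ≤ K, 0 ≤ tc (f * g) k := by
  intro k hk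
  rw [tc_mul hf hg]
  apply sum_nonneg
  intro i hi
  rw [mem_range] at hi
  exact mul_nonneg (h1 i (by omega)) (h2 (k - i) (by omega))

/-- a real polynomial as a function -/
noncomputable def pf (P : Polynomial ℝ) : ℂ → ℂ := fun z => P.aeval z

theorem pf_mul (P Q : Polynomial ℝ) : pf (P * Q) = pf P * pf Q := by
  funext z
  simp [pf]

theorem pf_one : pf 1 = 1 := by
  funext z
  simp [pf]

theorem pf_pow (P : Polynomial ℝ) (m : ℕ) : pf (P ^ m) = pf P ^ m := by
  induction m with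
  | zero => rw [pow_zero, pow_zero, pf_one]
  | succ m ih => rw [pow_succ, pow_succ, pf_mul, ih]

theorem pf_hasSum (P : Polynomial ℝ) (z : ℂ) :
    HasSum (fun k : ℕ => (P.coeff k : ℂ) * z ^ k) (pf P z) := by
  have h1 : pf P z = ∑ k ∈ range (P.natDegree + 1), (P.coeff k : ℂ) * z ^ k := by
    unfold pf
    rw [Polynomial.aeval_eq_sum_range]
    apply sum_congr rfl
    intro k _
    rw [Complex.real_smul]
  rw [h1]
  apply hasSum_sum_of_ne_finset_zero
  intro k hk
  rw [mem_range] at hk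
  rw [Polynomial.coeff_eq_zero_of_natDegree_lt (by omega)]
  simp

theorem pf_diff (P : Polynomial ℝ) : Differentiable ℂ (pf P) := by
  intro z
  exact (P.map (algebraMap ℝ ℂ)).differentiable.differentiableAt.congr_of_eventuallyEq
    (Filter.Eventually.of_forall fun w => by
      show P.aeval w = Polynomial.eval w (P.map (algebraMap ℝ ℂ))
      rw [Polynomial.eval_map_algebraMap])

theorem pf_coeff (P : Polynomial ℝ) (k : ℕ) :
    iteratedDeriv k (pf P) 0 = (k.factorial : ℂ) * (P.coeff k : ℂ) :=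
  BY.low_coeff one_pos (pf_diff P).differentiableOn (fun z _ => pf_hasSum P z) k

theorem rc_pf (P : Polynomial ℝ) : RC (pf P) := by
  refine ⟨(pf_diff P).analyticAt 0, fun k => ?_⟩
  rw [pf_coeff, ← Complex.ofReal_natCast, ← Complex.ofReal_mul, Complex.ofReal_im]

theorem tc_pf (P : Polynomial ℝ) (k : ℕ) : tc (pf P) k = P.coeff k := tc_of_eq (pf_coeff P k)

/-- conjugation symmetric holomorphic functions -/
theorem rc_of_conj {f : ℂ → ℂ} {R : ℝ} (hR : 0 < R) (hf : DifferentiableOn ℂ f (Metric.ball 0 R))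
    (hc : ∀ z : ℂ, ‖z‖ < R → f (starRingEnd ℂ z) = starRingEnd ℂ (f z)) : RC f := by
  refine ⟨hf.analyticAt (Metric.isOpen_ball.mem_nhds (Metric.mem_ball_self hR)), fun k => ?_⟩
  rw [← BY.low_real hR hf hc k, Complex.ofReal_im]

/-- Cauchy's estimate for `tc` -/
theorem tc_abs_le {f : ℂ → ℂ} {ρ B : ℝ} (hρ : 0 < ρ)
    (hf : DiffContOnCl ℂ f (Metric.ball 0 ρ)) (hB : ∀ z : ℂ, ‖z‖ = ρ → ‖f z‖ ≤ B) (k : ℕ) :
    |tc f k| ≤ (1 / ρ) ^ k * B := by
  have h1 := Complex.norm_iteratedDeriv_le_of_forall_mem_sphere_norm_le k hρ hf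
    (C := B) (fun z hz => hB z (by simpa using hz))
  have hk : (0 : ℝ) < (k.factorial : ℝ) := by exact_mod_cast Nat.factorial_pos k
  unfold tc
  rw [abs_div, abs_of_pos hk, div_le_iff₀ hk]
  refine (Complex.abs_re_le_norm _).trans (h1.trans (le_of_eq ?_))
  rw [one_div, inv_pow]
  field_simp

end Pool.Agent.Lib.MP_0430e4_lc.YL
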