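import Pool.Agent.Lib.MP_0430e4_lc.YL.L1

/-!
# Block LOW of Y1 (helper91): powers of one fixed function

`E` holomorphic near `0`, real, `E 0 = 1`, `E' 0 > 0`: the Taylor coefficients of `E^m` of index
`≤ κ m` are nonnegative and all of them are `≤ ρ^(-k) exp (C m)`, with constants independent of `m`.
-/

set_option autoImplicit false

namespace Pool.Agent.Lib.MP_0430e4_lc.YL

open Finset

/-- scaling of Taylor coefficients -/
theorem iter_scale {f : ℂ → ℂ} {R ρ : ℝ} (hR : 0 < R) (hρ : 0 < ρ)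
    (hf : DifferentiableOn ℂ f (Metric.ball 0 R)) (k : ℕ) :
    iteratedDeriv k (fun z => f (ρ * z)) 0 = (ρ : ℂ) ^ k * iteratedDeriv k f 0 := by
  have hd : DifferentiableOn ℂ (fun z => f (ρ * z)) (Metric.ball 0 (R / ρ)) := by
    intro z hz
    rw [mem_ball_zero_iff, lt_div_iff₀ hρ] at hz
    have h1 : (ρ : ℂ) * z ∈ Metric.ball (0 : ℂ) R := by
      rw [mem_ball_zero_iff, norm_mul, Complex.norm_real, Real.norm_eq_abs, abs_of_pos hρ, mul_comm]
      exact hz
    have h2 := (hf.differentiableAt (Metric.isOpen_ball.mem_nhds h1))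
    have h3 : DifferentiableAt ℂ (fun z : ℂ => (ρ : ℂ) * z) z :=
      (differentiableAt_id).const_mul _
    exact (h2.comp z h3).differentiableWithinAt
  have h4 := BY.low_coeff (c := fun k => (ρ : ℂ) ^ k * (iteratedDeriv k f 0 / (k.factorial : ℂ)))
    (div_pos hR hρ) hd (fun z hz => by
      rw [lt_div_iff₀ hρ] at hz
      have h5 := BY.low_hasSum hf (z := (ρ : ℂ) * z) (by
        rw [norm_mul, Complex.norm_real, Real.norm_eq_abs, abs_of_pos hρ, mul_comm]
        exact hz)
      refine h5.congr_fun ?_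
      intro n
      rw [mul_pow]
      ring) k
  rw [h4]
  have h6 : (k.factorial : ℂ) ≠ 0 := by exact_mod_cast Nat.factorial_ne_zero k
  field_simp

theorem pow_low {E : ℂ → ℂ} {R0 : ℝ} (hR0 : 0 < R0)
    (hE : DifferentiableOn ℂ E (Metric.ball 0 R0))
    (hc : ∀ z : ℂ, ‖z‖ < R0 → E (starRingEnd ℂ z) = starRingEnd ℂ (E z)) (h0 : E 0 = 1)
    (hd : 0 < (deriv E 0).re) :
    ∃ κ ρ C : ℝ, 0 < κ ∧ 0 < ρ ∧ 0 ≤ C ∧ ∀ m : ℕ,
      (∀ k : ℕ, (k : ℝ) ≤ κ * m → 0 ≤ tc (E ^ m) k) ∧
      (∀ k : ℕ, |tc (E ^ m) k| ≤ (1 / ρ) ^ k * Real.exp (C * m)) := by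
  have hnb : Metric.ball (0 : ℂ) R0 ∈ nhds (0 : ℂ) := Metric.isOpen_ball.mem_nhds (by simpa using hR0)
  have hcont : ContinuousAt E 0 := (hE.differentiableAt hnb).continuousAt
  obtain ⟨R1, hR1, hR1'⟩ : ∃ R1 : ℝ, 0 < R1 ∧ ∀ z : ℂ, ‖z‖ < R1 → ‖E z - 1‖ < 1 / 2 := by
    have h1 := Metric.continuousAt_iff.1 hcont (1 / 2) (by norm_num)
    obtain ⟨δ, hδ, h2⟩ := h1
    refine ⟨δ, hδ, fun z hz => ?_⟩
    have h3 := h2 (x := z) (by simpa [dist_eq_norm] using hz)
    rwa [dist_eq_norm, h0] at h3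
  set R : ℝ := min R0 R1 with hR
  have hRp : 0 < R := lt_min hR0 hR1
  set ρ : ℝ := R / 2 with hρ
  have hρp : 0 < ρ := by positivity
  have hslit : ∀ z : ℂ, ‖z‖ < R → E z ∈ Complex.slitPlane := by
    intro z hz
    left
    have h1 := hR1' z (hz.trans_le (min_le_right _ _))
    have h2 := Complex.abs_re_le_norm (E z - 1)
    rw [Complex.sub_re, Complex.one_re] at h2
    have h3 := (abs_le.1 (h2.trans h1.le)).1
    linarith
  have hne : ∀ z : ℂ, ‖z‖ < R → E z ≠ 0 := fun z hz => Complex.slitPlane_ne_zero (hslit z hz)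
  set L : ℂ → ℂ := fun z => Complex.log (E z) with hL
  have hLd : DifferentiableOn ℂ L (Metric.ball 0 R) := by
    intro z hz
    rw [mem_ball_zero_iff] at hz
    have h1 : DifferentiableAt ℂ E z := hE.differentiableAt
      (Metric.isOpen_ball.mem_nhds (by simpa using hz.trans_le (min_le_left _ _)))
    exact (h1.clog (hslit z hz)).differentiableWithinAt
  have hLexp : ∀ z : ℂ, ‖z‖ < R → Complex.exp (L z) = E z := fun z hz => Complex.exp_log (hne z hz)
  -- rescaled logarithm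
  set ψ : ℂ → ℂ := fun z => L (ρ * z) with hψ
  have hnorm : ∀ z : ℂ, ‖(ρ : ℂ) * z‖ = ρ * ‖z‖ := by
    intro z
    rw [norm_mul, Complex.norm_real, Real.norm_eq_abs, abs_of_pos hρp]
  have hψd : DifferentiableOn ℂ ψ (Metric.ball 0 2) := by
    intro z hz
    rw [mem_ball_zero_iff] at hz
    have h1 : (ρ : ℂ) * z ∈ Metric.ball (0 : ℂ) R := by
      rw [mem_ball_zero_iff, hnorm]
      have : ρ * ‖z‖ < ρ * 2 := mul_lt_mul_of_pos_left hz hρp
      linarith
    have h2 := (hLd.differentiableAt (Metric.isOpen_ball.mem_nhds h1))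
    have h3 : DifferentiableAt ℂ (fun z : ℂ => (ρ : ℂ) * z) z := (differentiableAt_id).const_mul _
    exact (h2.comp z h3).differentiableWithinAt
  have hψc : ∀ z : ℂ, ‖z‖ < 2 → ψ (starRingEnd ℂ z) = starRingEnd ℂ (ψ z) := by
    intro z hz
    have h1 : (ρ : ℂ) * starRingEnd ℂ z = starRingEnd ℂ ((ρ : ℂ) * z) := by
      rw [map_mul, Complex.conj_ofReal]
    have h2 : ‖(ρ : ℂ) * z‖ < R := by
      rw [hnorm]
      have : ρ * ‖z‖ < ρ * 2 := mul_lt_mul_of_pos_left hz hρp
      linarith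
    show Complex.log (E ((ρ : ℂ) * starRingEnd ℂ z)) = starRingEnd ℂ (Complex.log (E ((ρ : ℂ) * z)))
    rw [h1, hc _ (h2.trans_le (min_le_left _ _)), Complex.log_conj]
    exact Complex.slitPlane_arg_ne_pi (hslit _ h2)
  have hψ0 : ψ 0 = 0 := by
    show Complex.log (E ((ρ : ℂ) * 0)) = 0
    rw [mul_zero, h0, Complex.log_one]
  obtain ⟨K, hK0, hK⟩ := BY.low_bd (R := 2) (by norm_num) hψd
  set v : ℕ → ℝ := fun j => (iteratedDeriv j ψ 0).re / (j.factorial : ℝ) with hv
  have hvc : ∀ j : ℕ, (v j : ℂ) = iteratedDeriv j ψ 0 / (j.factorial : ℂ) := by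
    intro j
    rw [hv]
    push_cast
    rw [BY.low_real (by norm_num : (0 : ℝ) < 2) hψd hψc j]
  have hvb : ∀ j : ℕ, 1 ≤ j → |(j : ℝ) * v j| ≤ K := by
    intro j hj
    have h1 := hK j hj
    rw [← hvc] at h1
    have h2 : (j : ℂ) * (v j : ℂ) = (((j : ℝ) * v j : ℝ) : ℂ) := by push_cast; ring
    rwa [h2, Complex.norm_real, Real.norm_eq_abs] at h1
  -- the first coefficient
  have hs1 : v 1 = ρ * (deriv E 0).re := by
    have h1 : HasDerivAt E (deriv E 0) 0 := (hE.differentiableAt hnb).hasDerivAt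
    have h2 : HasDerivAt L (deriv E 0 / E 0) 0 := h1.clog (hslit 0 (by simpa using hRp))
    rw [h0, div_one] at h2
    have h3 : HasDerivAt ψ (deriv E 0 * ρ) 0 := by
      have h4 : HasDerivAt (fun z : ℂ => (ρ : ℂ) * z) ρ 0 := by
        simpa using (hasDerivAt_id (0 : ℂ)).const_mul (ρ : ℂ)
      have h5 : HasDerivAt L (deriv E 0) ((ρ : ℂ) * 0) := by rwa [mul_zero]
      exact h5.comp 0 h4
    rw [hv]
    simp only [iteratedDeriv_one, Nat.factorial_one, Nat.cast_one, div_one]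
    rw [h3.deriv, mul_comm, Complex.re_ofReal_mul]
  set s : ℝ := ρ * (deriv E 0).re with hs
  have hsp : 0 < s := mul_pos hρp hd
  have hD : 0 < 4 * K + 2 * s := by positivity
  refine ⟨s ^ 2 / (4 * K + 2 * s), ρ, Real.log (3 / 2), by positivity, hρp,
    Real.log_nonneg (by norm_num), fun m => ⟨?_, ?_⟩⟩
  · intro k hk
    rcases Nat.eq_zero_or_pos m with hm | hm
    · subst hm
      rw [pow_zero, tc_one]
      split_ifs <;> norm_num
    · obtain ⟨r, hr, hre⟩ := BY.exp_low_pos (ψ := ψ) (R := 2) (by norm_num) hψd hψ0 (s := s) (G := K)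
        (κ := s ^ 2 / (4 * K + 2 * s)) hsp hK0 (by positivity)
        (by rw [div_mul_cancel₀ _ hD.ne'])
        (fun j => (j : ℝ) * v j) (by simp [hs1]) (fun j hj => hvb j (by omega))
        (by
          intro j
          have h1 := hvc (j + 1)
          have h2 : ((j + 1).factorial : ℂ) ≠ 0 := by exact_mod_cast Nat.factorial_ne_zero _
          rw [eq_div_iff h2] at h1
          rw [← h1, Nat.factorial_succ]
          push_cast
          ring)
        (n := (m : ℝ)) (by exact_mod_cast hm) k hk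
      have h3 : (fun z => Complex.exp (((m : ℝ) : ℂ) * ψ z)) =ᶠ[nhds 0] (fun z => (E ^ m) (ρ * z)) := by
        filter_upwards [Metric.ball_mem_nhds (0 : ℂ) one_pos] with z hz
        rw [mem_ball_zero_iff] at hz
        have h4 : ‖(ρ : ℂ) * z‖ < R := by
          rw [hnorm]
          have : ρ * ‖z‖ < ρ * 1 := mul_lt_mul_of_pos_left hz hρp
          linarith
        rw [Pi.pow_apply, ← hLexp _ h4, ← Complex.exp_nat_mul]
        simp [hψ]
      rw [h3.iteratedDeriv_eq k, iter_scale hRp hρp ((hE.mono (Metric.ball_subset_ball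
        (min_le_left _ _))).pow m)] at hre
      have hρk : (ρ : ℂ) ^ k ≠ 0 := pow_ne_zero _ (by exact_mod_cast hρp.ne')
      have h5 : iteratedDeriv k (E ^ m) 0 = (k.factorial : ℂ) * ((r / ρ ^ k : ℝ) : ℂ) := by
        push_cast
        rw [mul_div_assoc', eq_div_iff hρk, ← hre]
        ring
      rw [tc_of_eq h5]
      positivity
  · intro k
    have hsub : Metric.closedBall (0 : ℂ) ρ ⊆ Metric.ball 0 R0 :=
      Metric.closedBall_subset_ball (by
        have := min_le_left R0 R1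
        rw [hρ]
        linarith [half_lt_self hRp])
    have hcl : DiffContOnCl ℂ (E ^ m) (Metric.ball 0 ρ) :=
      DifferentiableOn.diffContOnCl_ball (U := Metric.ball 0 R0) (hE.pow m) hsub
    have h6 := tc_abs_le (f := E ^ m) (B := (3 / 2) ^ m) hρp hcl (fun z hz => by
      rw [Pi.pow_apply, norm_pow]
      apply pow_le_pow_left₀ (norm_nonneg _)
      have h7 := hR1' z (by
        rw [hz]
        have := min_le_right R0 R1
        linarith [half_lt_self hRp])
      have h8 : E z = (E z - 1) + 1 := by ring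
      rw [h8]
      refine (norm_add_le _ _).trans ?_
      rw [norm_one]
      linarith) k
    refine h6.trans (le_of_eq ?_)
    congr 1
    rw [mul_comm, Real.exp_nat_mul, Real.exp_log (by norm_num)]

end Pool.Agent.Lib.MP_0430e4_lc.YL
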