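import Pool.Agent.Lib.MP_0430e4_lc.YL.L2

/-!
# Block LOW of Y1 (helper91): the ratio lemma, the convolution and the level of powers
-/

set_option autoImplicit false

namespace Pool.Agent.Lib.MP_0430e4_lc.YL

open Finset Polynomial

/-- `p_k ≤ (2 (k+1) / l) p_(k+1)` for `k + 1 ≤ l² / (4 n)`. -/
theorem ratio_low {p : ℕ → ℝ} {n l : ℝ} (hn : 0 < n) (hl : 0 < l) (hp : ∀ k, 0 ≤ p k)
    (h0 : l * p 0 ≤ p 1)
    (hrec : ∀ k : ℕ, l * p (k + 1) ≤ ((k : ℝ) + 2) * p (k + 2) + n * p k) :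
    ∀ k : ℕ, 4 * n * ((k : ℝ) + 1) ≤ l ^ 2 → l * p k ≤ 2 * ((k : ℝ) + 1) * p (k + 1) := by
  intro k
  induction k with
  | zero =>
    intro _
    have := hp 1
    push_cast
    linarith
  | succ k ih =>
    intro hk
    push_cast at hk ⊢
    have h1 := ih (by nlinarith)
    have h2 := hrec k
    have h3 := hp (k + 1)
    have h4 := hp k
    -- n p_k ≤ (2 n (k+1) / l) p_(k+1) ≤ (l/2) p_(k+1)
    have h5 : n * p k ≤ l / 2 * p (k + 1) := by
      have h6 : l * (n * p k) ≤ l * (l / 2 * p (k + 1)) := by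
        have h7 : n * (l * p k) ≤ n * (2 * ((k : ℝ) + 1) * p (k + 1)) :=
          mul_le_mul_of_nonneg_left h1 hn.le
        have h8 : (2 * n * ((k : ℝ) + 1)) * p (k + 1) ≤ (l ^ 2 / 2) * p (k + 1) := by
          apply mul_le_mul_of_nonneg_right _ h3
          nlinarith
        nlinarith
      exact le_of_mul_le_mul_left h6 hl
    have h9 : (k + 1 + 1 : ℕ) = k + 2 := rfl
    rw [h9]
    nlinarith

theorem conv_low {p H : ℕ → ℝ} {κE ρ C X : ℝ} {m K : ℕ} (hκ : 0 < κE) (hρ : 0 < ρ) (hC : 0 ≤ C)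
    (hX : 0 ≤ X) (hx : X * (1 / ρ) * Real.exp (C / κE) ≤ 1 / 4)
    (hp : ∀ k, 0 ≤ p k) (hr : ∀ k, k + 1 ≤ K → p k ≤ X * p (k + 1))
    (hH0 : H 0 = 1) (hHp : ∀ j : ℕ, (j : ℝ) ≤ κE * m → 0 ≤ H j)
    (hHb : ∀ j : ℕ, |H j| ≤ (1 / ρ) ^ j * Real.exp (C * m)) :
    ∀ k ≤ K, 0 ≤ ∑ j ∈ range (k + 1), p (k - j) * H j := by
  intro k hk
  have hstep : ∀ j, j ≤ k → p (k - j) ≤ X ^ j * p k := by
    intro j
    induction j with
    | zero => intro _; simp
    | succ j ih =>
      intro hj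
      have h1 := ih (by omega)
      have h2 := hr (k - (j + 1)) (by omega)
      have h3 : k - (j + 1) + 1 = k - j := by omega
      rw [h3] at h2
      calc p (k - (j + 1)) ≤ X * p (k - j) := h2
        _ ≤ X * (X ^ j * p k) := mul_le_mul_of_nonneg_left h1 hX
        _ = X ^ (j + 1) * p k := by ring
  have hterm : ∀ j ∈ range k, -((1 / 4 : ℝ) ^ (j + 1) * p k) ≤ p (k - (j + 1)) * H (j + 1) := by
    intro j hj
    rw [mem_range] at hj
    by_cases h : ((j + 1 : ℕ) : ℝ) ≤ κE * m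
    · have h1 := mul_nonneg (hp (k - (j + 1))) (hHp (j + 1) h)
      have h2 : 0 ≤ (1 / 4 : ℝ) ^ (j + 1) * p k := mul_nonneg (by positivity) (hp k)
      linarith
    · push Not at h
      have h1 := hstep (j + 1) (by omega)
      have h2 := hHb (j + 1)
      have h3 : Real.exp (C * m) ≤ Real.exp (C / κE) ^ (j + 1) := by
        rw [← Real.exp_nat_mul]
        apply Real.exp_le_exp.2
        rw [mul_comm ((j + 1 : ℕ) : ℝ), div_mul_eq_mul_div, le_div_iff₀ hκ]
        nlinarith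
      have h4 : |p (k - (j + 1)) * H (j + 1)| ≤ (1 / 4 : ℝ) ^ (j + 1) * p k := by
        rw [abs_mul, abs_of_nonneg (hp _)]
        calc p (k - (j + 1)) * |H (j + 1)|
            ≤ (X ^ (j + 1) * p k) * ((1 / ρ) ^ (j + 1) * Real.exp (C / κE) ^ (j + 1)) := by
              apply mul_le_mul h1 _ (abs_nonneg _) (mul_nonneg (by positivity) (hp k))
              exact h2.trans (mul_le_mul_of_nonneg_left h3 (by positivity))
          _ = (X * (1 / ρ) * Real.exp (C / κE)) ^ (j + 1) * p k := by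
              rw [mul_pow, mul_pow]; ring
          _ ≤ _ := by
              apply mul_le_mul_of_nonneg_right _ (hp k)
              exact pow_le_pow_left₀ (by positivity) hx _
      exact (abs_le.1 h4).1
  rw [sum_range_succ']
  simp only [Nat.sub_zero, hH0, mul_one]
  have h5 := sum_le_sum hterm
  have h6 : ∑ j ∈ range k, -((1 / 4 : ℝ) ^ (j + 1) * p k) = -(p k * ∑ j ∈ range k, (1 / 4 : ℝ) ^ (j + 1)) := by
    rw [sum_neg_distrib, mul_sum]
    congr 1
    apply sum_congr rfl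
    intro j _
    ring
  rw [h6] at h5
  have h7 : ∑ j ∈ range k, (1 / 4 : ℝ) ^ (j + 1) ≤ 1 / 3 := by
    have h8 : ∀ k : ℕ, ∑ j ∈ range k, (1 / 4 : ℝ) ^ (j + 1) = 1 / 3 - (1 / 3) * (1 / 4) ^ k := by
      intro k
      induction k with
      | zero => simp
      | succ k ih =>
        rw [sum_range_succ, ih, pow_succ]
        ring
    rw [h8]
    have : 0 ≤ (1 / 3 : ℝ) * (1 / 4) ^ k := by positivity
    linarith
  have h9 : p k * ∑ j ∈ range k, (1 / 4 : ℝ) ^ (j + 1) ≤ p k * (1 / 3) :=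
    mul_le_mul_of_nonneg_left h7 (hp k)
  have := hp k
  linarith

/-- coefficientwise nonnegative -/
def CN (P : ℝ[X]) : Prop := ∀ k, 0 ≤ P.coeff k

theorem CN.mul {P Q : ℝ[X]} (hP : CN P) (hQ : CN Q) : CN (P * Q) := by
  intro k
  rw [coeff_mul]
  exact sum_nonneg fun x _ => mul_nonneg (hP _) (hQ _)

theorem CN.add {P Q : ℝ[X]} (hP : CN P) (hQ : CN Q) : CN (P + Q) := by
  intro k
  rw [coeff_add]
  exact add_nonneg (hP k) (hQ k)

theorem cn_one : CN (1 : ℝ[X]) := by
  intro k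
  rw [coeff_one]
  split_ifs <;> norm_num

theorem CN.pow {P : ℝ[X]} (hP : CN P) (m : ℕ) : CN (P ^ m) := by
  induction m with
  | zero => rw [pow_zero]; exact cn_one
  | succ m ih => rw [pow_succ]; exact ih.mul hP

theorem cn_X : CN (X : ℝ[X]) := by
  intro k
  rw [coeff_X]
  split_ifs <;> norm_num

theorem cn_C {a : ℝ} (ha : 0 ≤ a) : CN (C a) := by
  intro k
  rw [coeff_C]
  split_ifs
  · exact ha
  · exact le_rfl

theorem cn_one_add_X : CN (1 + X : ℝ[X]) := cn_one.add cn_X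

/-- the level of a power -/
theorem lop_pow {N : ℕ} {l : ℝ} {q : ℝ[X]} (hq : CN q) (hl : CN (All.lop N l q)) (j : ℕ) :
    CN (All.lop (j * N) (j * l) (q ^ j)) := by
  induction j with
  | zero =>
    have h1 := All.lop_one 0
    have h2 : ((0 : ℕ) : ℝ) * l = 0 := by simp
    rw [pow_zero, Nat.zero_mul, h2, h1]
    simp only [Nat.cast_zero, C_0, zero_mul]
    intro k
    simp
  | succ j ih =>
    have h1 := All.lop_mul (j * N) N (j * l) l (q ^ j) q
    have h2 : (j + 1) * N = j * N + N := by ring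
    have h3 : ((j + 1 : ℕ) : ℝ) * l = j * l + l := by push_cast; ring
    rw [pow_succ, h2, h3, h1]
    exact (ih.mul hq).add ((hq.pow j).mul hl)

/-- extra letters -/
theorem lop_pad (r : ℕ) : CN (All.lop r 0 ((1 + X : ℝ[X]) ^ r)) := by
  have h1 : CN (All.lop 1 0 (1 + X : ℝ[X])) := by
    have h2 : All.lop 1 0 (1 + X : ℝ[X]) = 1 + X := by
      unfold All.lop
      simp
      ring
    rw [h2]
    exact cn_one_add_X
  have h3 := lop_pow cn_one_add_X h1 r
  rwa [mul_one, mul_zero] at h3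

/-- the coefficients of `lop` -/
theorem lop_rec {n : ℕ} {l : ℝ} {P : ℝ[X]} (hP : CN P) (h : CN (All.lop n l P)) :
    l * P.coeff 0 ≤ P.coeff 1 ∧
      ∀ k : ℕ, l * P.coeff (k + 1) ≤ ((k : ℝ) + 2) * P.coeff (k + 2) + n * P.coeff k := by
  have hlop : All.lop n l P = derivative P - X * (X * derivative P) + C (n : ℝ) * (X * P) - C l * P := by
    unfold All.lop
    ring
  constructor
  · have h1 := h 0
    rw [hlop] at h1
    simp only [coeff_sub, coeff_add, coeff_C_mul, mul_coeff_zero, coeff_X_zero, zero_mul,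
      coeff_derivative, mul_zero, sub_zero, add_zero] at h1
    simp at h1
    linarith
  · intro k
    have h1 := h (k + 1)
    rw [hlop] at h1
    have hk := hP k
    rcases k with _ | k
    · simp only [coeff_sub, coeff_add, coeff_C_mul, coeff_X_mul, coeff_derivative,
        mul_coeff_zero, coeff_X_zero, zero_mul] at h1
      push_cast at h1 ⊢
      simp only [zero_add] at h1 ⊢
      norm_num at h1 ⊢
      linarith
    · simp only [coeff_sub, coeff_add, coeff_C_mul, coeff_X_mul, coeff_derivative] at h1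
      push_cast at h1 ⊢
      have h3 : 0 ≤ ((k : ℝ) + 1) * P.coeff (k + 1) := mul_nonneg (by positivity) hk
      have h4 : k + 1 + 1 + 1 = k + 1 + 2 := rfl
      rw [h4] at h1
      nlinarith

end Pool.Agent.Lib.MP_0430e4_lc.YL
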