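import Pool.Agent.Lib.MP_0430e4_lc.YL.L3

/-!
# Block LOW of Y1 (helper91): low coefficients of `(Q E^m1 B)^j (1+z)^r`

`low_main`: the range `k ≤ κ n` depends only on `E` and on a lower bound `λ0` of the level per letter:
not on `Q`, its length `N0`, `m1`, `B`, `j`, `r`.
-/

set_option autoImplicit false

namespace Pool.Agent.Lib.MP_0430e4_lc.YL

open Finset Polynomial

theorem low_main {E : ℂ → ℂ} {R0 : ℝ} (hR0 : 0 < R0)
    (hE : DifferentiableOn ℂ E (Metric.ball 0 R0))
    (hc : ∀ z : ℂ, ‖z‖ < R0 → E (starRingEnd ℂ z) = starRingEnd ℂ (E z)) (h0 : E 0 = 1)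
    (hd : 0 < (deriv E 0).re) {lam : ℝ} (hlam : 0 < lam) :
    ∃ κ : ℝ, 0 < κ ∧ ∀ (N0 : ℕ) (l : ℝ) (q b : ℝ[X]), lam * N0 ≤ l → CN q →
      CN (All.lop N0 l q) → CN b → ∀ m1 j r : ℕ, r < N0 → ∀ k : ℕ,
      (k : ℝ) ≤ κ * ((j * N0 + r : ℕ) : ℝ) →
        0 ≤ tc ((pf q * E ^ m1 * pf b) ^ j * pf ((1 + X) ^ r)) k := by
  obtain ⟨κE, ρ, C, hκE, hρ, hC, hpow⟩ := pow_low hR0 hE hc h0 hd
  have hrE : RC E := rc_of_conj hR0 hE hc
  set e : ℝ := Real.exp (C / κE) with he
  have hep : 0 < e := Real.exp_pos _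
  set κ : ℝ := min (lam ^ 2 / 16) (lam * ρ / (16 * e)) with hκ
  have hκp : 0 < κ := lt_min (by positivity) (by positivity)
  refine ⟨κ, hκp, fun N0 l q b hl hq hlq hb m1 j r hr k hk => ?_⟩
  have hfun : (pf q * E ^ m1 * pf b) ^ j * pf ((1 + X) ^ r)
      = E ^ (m1 * j) * pf (q ^ j * (1 + X) ^ r) * pf (b ^ j) := by
    rw [pf_mul, pf_pow q, pf_pow b, pow_mul, mul_pow, mul_pow]
    ring
  rw [hfun]
  have hP : CN (q ^ j * (1 + X) ^ r) := (hq.pow j).mul (cn_one_add_X.pow r)
  refine tc_nonneg_mul ((hrE.pow _).mul (rc_pf _)) (rc_pf _) (K := k) (fun k' hk' => ?_)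
    (fun k' _ => by rw [tc_pf]; exact (hb.pow j) k') k le_rfl
  rw [tc_mul (hrE.pow _) (rc_pf _)]
  set p : ℕ → ℝ := fun k => (q ^ j * (1 + X : ℝ[X]) ^ r).coeff k with hp
  set H : ℕ → ℝ := fun k => tc (E ^ (m1 * j)) k with hH
  have hgoal : ∑ i ∈ range (k' + 1), tc (E ^ (m1 * j)) i * tc (pf (q ^ j * (1 + X) ^ r)) (k' - i)
      = ∑ i ∈ range (k' + 1), p (k' - i) * H i := by
    apply sum_congr rfl
    intro i _
    rw [tc_pf, mul_comm]
  rw [hgoal]
  have hH0 : H 0 = 1 := by
    show tc (E ^ (m1 * j)) 0 = 1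
    unfold tc
    simp [h0]
  rcases Nat.eq_zero_or_pos j with hj | hj
  · -- no power at all
    subst hj
    apply sum_nonneg
    intro i _
    apply mul_nonneg (hP _)
    show 0 ≤ tc (E ^ (m1 * 0)) i
    rw [mul_zero, pow_zero, tc_one]
    split_ifs <;> norm_num
  · set n : ℝ := ((j * N0 + r : ℕ) : ℝ) with hn
    have hN0 : 0 < N0 := by omega
    have hj1 : (1 : ℝ) ≤ j := by exact_mod_cast hj
    have hN1 : (0 : ℝ) < N0 := by exact_mod_cast hN0
    have hrN : (r : ℝ) ≤ N0 := by exact_mod_cast hr.le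
    have hn' : n = j * N0 + r := by rw [hn]; push_cast; ring
    have hnp : 0 < n := by
      rw [hn']
      have : (0 : ℝ) ≤ r := Nat.cast_nonneg r
      nlinarith
    have hn2 : n ≤ 2 * (j * N0) := by
      rw [hn']
      nlinarith
    set L : ℝ := j * l with hL
    have hLn : lam / 2 * n ≤ L := by
      have h1 : (j : ℝ) * (lam * N0) ≤ j * l := mul_le_mul_of_nonneg_left hl (by linarith)
      have h2 : lam / 2 * n ≤ lam / 2 * (2 * (j * N0)) := mul_le_mul_of_nonneg_left hn2 (by linarith)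
      rw [hL]
      nlinarith
    have hLp : 0 < L := lt_of_lt_of_le (by positivity) hLn
    have hlev : CN (All.lop (j * N0 + r) L (q ^ j * (1 + X) ^ r)) := by
      have h1 := All.lop_mul (j * N0) r L 0 (q ^ j) ((1 + X) ^ r)
      rw [add_zero] at h1
      rw [h1]
      exact ((lop_pow hq hlq j).mul (cn_one_add_X.pow r)).add ((hq.pow j).mul (lop_pad r))
    obtain ⟨h01, hrec⟩ := lop_rec hP hlev
    have hratio := ratio_low (p := p) (n := n) hnp hLp hP h01 (fun k => hrec k)
    refine conv_low (p := p) (H := H) (m := m1 * j) (K := k) (X := 4 * κ / lam) hκE hρ hC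
      (by positivity) ?_ hP ?_ hH0 (hpow (m1 * j)).1 (hpow (m1 * j)).2 k' hk'
    · have h1 : κ ≤ lam * ρ / (16 * e) := min_le_right _ _
      rw [← he]
      have h2 : 4 * κ / lam * (1 / ρ) * e = κ * (4 * e / (lam * ρ)) := by
        field_simp
      rw [h2]
      calc κ * (4 * e / (lam * ρ)) ≤ lam * ρ / (16 * e) * (4 * e / (lam * ρ)) :=
            mul_le_mul_of_nonneg_right h1 (by positivity)
        _ = 1 / 4 := by
            field_simp
            norm_num
        _ ≤ 1 / 4 := le_rfl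
    · intro i hi
      have hi1 : ((i : ℝ) + 1) ≤ κ * n := by
        have : ((i + 1 : ℕ) : ℝ) ≤ k := by exact_mod_cast hi
        push_cast at this
        linarith
      have h3 : 4 * n * ((i : ℝ) + 1) ≤ L ^ 2 := by
        have h4 : κ ≤ lam ^ 2 / 16 := min_le_left _ _
        have h5 : (lam / 2 * n) ^ 2 ≤ L ^ 2 := pow_le_pow_left₀ (by positivity) hLn 2
        have h6 : 4 * n * ((i : ℝ) + 1) ≤ 4 * n * (κ * n) :=
          mul_le_mul_of_nonneg_left hi1 (by positivity)
        have h7 : 4 * n * (κ * n) ≤ 4 * n * (lam ^ 2 / 16 * n) := by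
          apply mul_le_mul_of_nonneg_left _ (by positivity)
          exact mul_le_mul_of_nonneg_right h4 hnp.le
        nlinarith
      have h8 := hratio i h3
      have h9 := hP (i + 1)
      have h10 : L * p i ≤ L * (4 * κ / lam * p (i + 1)) := by
        refine h8.trans ?_
        have h11 : 2 * ((i : ℝ) + 1) ≤ L * (4 * κ / lam) := by
          have h12 : lam / 2 * n * (4 * κ / lam) ≤ L * (4 * κ / lam) :=
            mul_le_mul_of_nonneg_right hLn (by positivity)
          have h13 : lam / 2 * n * (4 * κ / lam) = 2 * (κ * n) := by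
            field_simp
            ring
          linarith
        calc 2 * ((i : ℝ) + 1) * p (i + 1) ≤ L * (4 * κ / lam) * p (i + 1) :=
              mul_le_mul_of_nonneg_right h11 h9
          _ = L * (4 * κ / lam * p (i + 1)) := by ring
      exact le_of_mul_le_mul_left h10 hLp

end Pool.Agent.Lib.MP_0430e4_lc.YL
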