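import Pool.Agent.Lib.MP_0430e4_lc.YL.L4
import Pool.Agent.Lib.MP_0430e4_lc.YP.Defs

/-!
# Block LOW of Y1 (helper91): the field `low` of `Base`
-/

set_option autoImplicit false

namespace Pool.Agent.Lib.MP_0430e4_lc.YL

open Finset Polynomial

theorem cof_eq_tc (f : ℂ → ℂ) (k : ℕ) : YP.cof f k = tc f k := rfl

theorem fn_eq (F0 : ℂ → ℂ) (N0 n : ℕ) :
    YP.Fn F0 N0 n = F0 ^ (n / N0) * pf ((1 + X) ^ (n % N0)) := by
  funext z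
  simp [YP.Fn, pf]

/-- **The field `low`.** `F0 = Q E^m1 B`: `κ` depends only on `E` and on the level per letter `lam`. -/
theorem low_base {E : ℂ → ℂ} {R0 : ℝ} (hR0 : 0 < R0)
    (hE : DifferentiableOn ℂ E (Metric.ball 0 R0))
    (hc : ∀ z : ℂ, ‖z‖ < R0 → E (starRingEnd ℂ z) = starRingEnd ℂ (E z)) (h0 : E 0 = 1)
    (hd : 0 < (deriv E 0).re) {lam : ℝ} (hlam : 0 < lam) :
    ∃ κ : ℝ, 0 < κ ∧ ∀ (N0 : ℕ) (l : ℝ) (q b : ℝ[X]), 0 < N0 → lam * N0 ≤ l → CN q →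
      CN (All.lop N0 l q) → CN b → ∀ m1 n k : ℕ, (k : ℝ) ≤ κ * n →
        0 ≤ YP.cn (fun z => q.aeval z * E z ^ m1 * b.aeval z) N0 n k := by
  obtain ⟨κ, hκ, h⟩ := low_main hR0 hE hc h0 hd hlam
  refine ⟨κ, hκ, fun N0 l q b hN0 hl hq hlq hb m1 n k hk => ?_⟩
  have h1 := h N0 l q b hl hq hlq hb m1 (n / N0) (n % N0) (Nat.mod_lt _ hN0) k (by
    rw [Nat.div_add_mod']
    exact hk)
  unfold YP.cn
  rw [cof_eq_tc, fn_eq]
  exact h1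

end Pool.Agent.Lib.MP_0430e4_lc.YL
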